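import Pool.Agent.TH266.UM.Cnt

/-!
# N13 CNTL: lower bound for one class of lines (job 5026)
-/

set_option autoImplicit false

namespace Pool.Agent.TH633.UM

open Finset Pool.Agent.TH266.UM

theorem aaEq (k : ℕ) (v : ℤ) (K lam : ℝ) (hK : (k : ℝ) * lam + v = K) (d t j i : ℕ) :
    aa lam v k d t j i = ⌈-(lam * ((d : ℝ) / 3 - j)) + K * t + K * i⌉ := by
  unfold aa LL
  rw [Nat.zero_sub, Nat.cast_zero, add_zero]
  have h : (-(lam * ((d : ℝ) / 3 - j)) + K * t + K * i : ℝ) =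
      -(lam * ((d : ℝ) / 3 - ((j + k * (i + t) : ℕ) : ℝ))) + ((v * ((i + t : ℕ) : ℤ) : ℤ) : ℝ) := by
    rw [← hK]; push_cast; ring
  rw [h, Int.ceil_add_intCast]

theorem LLEq (k : ℕ) (v : ℤ) (K lam : ℝ) (hK : (k : ℝ) * lam + v = K) (d e t j i : ℕ) :
    LL lam d e (j + k * (i + t)) + v * ((i + t : ℕ) : ℤ) =
      ⌈-(lam * ((d : ℝ) / 3 - j)) + K * t + K * i⌉ + ((e - (j + k * (i + t)) : ℕ) : ℤ) := by
  rw [← aaEq k v K lam hK]
  unfold aa LL
  rw [Nat.zero_sub, Nat.cast_zero, add_zero]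
  ring

theorem bbEq (k : ℕ) (v : ℤ) (K lam : ℝ) (hK : (k : ℝ) * lam + v = K) (d t j i : ℕ) :
    bb lam v k d j i =
      ⌊-(lam * ((d : ℝ) / 3 - j)) + K * t + (3 * d - K * t - 9 * j) + (K - 9 * k) * i⌋ := by
  unfold bb UU
  have h : (-(lam * ((d : ℝ) / 3 - j)) + K * t + (3 * d - K * t - 9 * j) + (K - 9 * k) * i : ℝ) =
      (9 - lam) * ((d : ℝ) / 3 - ((j + k * i : ℕ) : ℝ)) + ((v * (i : ℤ) : ℤ) : ℝ) := by
    rw [← hK]; push_cast; ring
  rw [h, Int.floor_add_intCast]

theorem lt_hh {k H j i : ℕ} (hj : j < k) : i < hh k H j ↔ j + k * i < H := by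
  unfold hh
  rw [← Nat.succ_le_iff, Nat.le_div_iff_mul_le (by omega)]
  rw [Nat.succ_mul, Nat.mul_comm i k]
  omega

theorem cast_sub_le (x y : ℝ) (h : x ≤ y) : ⌈x⌉ ≤ ⌊y⌋ + 1 := by
  have h1 : (⌈x⌉ : ℝ) < x + 1 := Int.ceil_lt_add_one x
  have h2 : y < (⌊y⌋ : ℝ) + 1 := Int.lt_floor_add_one y
  have h3 : ((⌈x⌉ : ℤ) : ℝ) < ((⌊y⌋ + 1 + 1 : ℤ) : ℝ) := by push_cast; linarith
  have h4 : ⌈x⌉ < ⌊y⌋ + 1 + 1 := by exact_mod_cast h3
  omega

theorem cast_sub_le' (x y : ℝ) (n : ℕ) (h : x + n ≤ y) : ⌈x⌉ + (n : ℤ) ≤ ⌊y⌋ + 1 := by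
  have := cast_sub_le (x + n) y h
  rwa [show (x + n : ℝ) = x + ((n : ℤ) : ℝ) by push_cast; ring, Int.ceil_add_intCast] at this

theorem cntL : Pool.Agent.TH266.UM.S_CNTL := by
  intro k v K lam hk hK h9 d e t H Q j hj hHQ hQ1 hQ2 hE hO hS hT
  set h := hh k H j with hh_def
  set q := hh k (Q + 1) j with hq_def
  have hkR : (1 : ℝ) ≤ k := by exact_mod_cast hk
  have hK0 : 0 < K := by linarith
  -- monotonicity of the right ends
  have bmono : ∀ i i' : ℕ, i ≤ i' → bb lam v k d j i ≤ bb lam v k d j i' := by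
    intro i i' hii
    rw [bbEq k v K lam hK d t, bbEq k v K lam hK d t]
    apply Int.floor_le_floor
    have : (i : ℝ) ≤ i' := by exact_mod_cast hii
    have h2 : (K - 9 * k) * (i : ℝ) ≤ (K - 9 * k) * i' :=
      mul_le_mul_of_nonneg_left this (by linarith)
    linarith
  -- gap
  have gap : ∀ i : ℕ, h ≤ i → bb lam v k d j i < aa lam v k d t j (i + 1) := by
    intro i hi
    have hJ : H ≤ j + k * i := by
      by_contra hc
      push Not at hc
      have := (lt_hh (k := k) (H := H) (j := j) (i := i) hj).2 hc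
      omega
    have h1 := hS _ hJ
    rw [bbEq k v K lam hK d t, aaEq k v K lam hK d t]
    have h2 : ((⌊-(lam * ((d : ℝ) / 3 - j)) + K * t + (3 * d - K * t - 9 * j) + (K - 9 * k) * i⌋ : ℤ) : ℝ)
        ≤ -(lam * ((d : ℝ) / 3 - j)) + K * t + (3 * d - K * t - 9 * j) + (K - 9 * k) * i :=
      Int.floor_le _
    have h3 : (-(lam * ((d : ℝ) / 3 - j)) + K * t + K * ((i + 1 : ℕ) : ℝ) : ℝ) ≤
        ((⌈-(lam * ((d : ℝ) / 3 - j)) + K * t + K * ((i + 1 : ℕ) : ℝ)⌉ : ℤ) : ℝ) := Int.le_ceil _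
    have h4 : ((⌊-(lam * ((d : ℝ) / 3 - j)) + K * t + (3 * d - K * t - 9 * j) + (K - 9 * k) * i⌋ : ℤ) : ℝ)
        < ((⌈-(lam * ((d : ℝ) / 3 - j)) + K * t + K * ((i + 1 : ℕ) : ℝ)⌉ : ℤ) : ℝ) := by
      refine lt_of_le_of_lt h2 (lt_of_lt_of_le ?_ h3)
      push_cast at h1 ⊢
      nlinarith
    exact_mod_cast h4
  -- lengths
  have len : ∀ i : ℕ, i < q → aa lam v k d t j i ≤ bb lam v k d j i + 1 := by
    intro i hi
    have hJ : j + k * i < Q + 1 := (lt_hh hj).1 hi
    have hJ' : ((j + k * i : ℕ) : ℝ) ≤ Q := by exact_mod_cast Nat.lt_succ_iff.1 hJ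
    rw [bbEq k v K lam hK d t, aaEq k v K lam hK d t]
    apply cast_sub_le
    push_cast at hJ'
    nlinarith
  have len0 : aa lam v k d t j 0 + ((e - k * t - j : ℕ) : ℤ) ≤ bb lam v k d j h + 1 := by
    refine le_trans ?_ (add_le_add_left (bmono 0 h (Nat.zero_le _)) 1)
    rw [bbEq k v K lam hK d t, aaEq k v K lam hK d t]
    apply cast_sub_le'
    push_cast
    linarith
  -- the set
  refine ⟨Icc (aa lam v k d t j 0 + ((e - k * t - j : ℕ) : ℤ)) (bb lam v k d j h) ∪
    (Ico (h + 1) q).biUnion (fun i => Icc (aa lam v k d t j i) (bb lam v k d j i)), ?_, ?_⟩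
  · intro z hz
    rw [mem_union, mem_biUnion] at hz
    rcases hz with hz | ⟨i, hi, hz⟩
    · rw [mem_Icc] at hz
      classical
      have hex : ∃ i : ℕ, z ≤ bb lam v k d j i := ⟨h, hz.2⟩
      set i := Nat.find hex with hi_def
      have hi1 : z ≤ bb lam v k d j i := Nat.find_spec hex
      have hi2 : i ≤ h := Nat.find_min' hex hz.2
      refine ⟨i, ?_, hi1⟩
      rw [LLEq k v K lam hK]
      rcases Nat.eq_zero_or_pos i with h0 | h0
      · rw [h0, ← aaEq k v K lam hK]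
        have : e - (j + k * (0 + t)) = e - k * t - j := by
          rw [Nat.zero_add]; omega
        rw [this]
        exact hz.1
      · obtain ⟨i', hi'⟩ : ∃ i', i = i' + 1 := ⟨i - 1, by omega⟩
        have h1 : ¬ z ≤ bb lam v k d j i' := Nat.find_min hex (by omega)
        push Not at h1
        have h2 : i' < h := by omega
        have hJ := (lt_hh hj).1 h2
        have h3 := hO _ hJ
        refine le_trans ?_ h1
        rw [hi', bbEq k v K lam hK d t]
        have h4 : e - (j + k * (i' + 1 + t)) = e - k * (t + 1) - (j + k * i') := by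
          have : k * (i' + 1 + t) = k * (t + 1) + k * i' := by ring
          rw [this]; omega
        rw [h4]
        apply cast_sub_le'
        push_cast at h3 ⊢
        nlinarith
    · rw [mem_Icc] at hz
      rw [mem_Ico] at hi
      refine ⟨i, ?_, hz.2⟩
      rw [LLEq k v K lam hK, ← aaEq k v K lam hK]
      obtain ⟨i', hi'⟩ : ∃ i', i = i' + 1 := ⟨i - 1, by omega⟩
      have hJ : H ≤ j + k * i' := by
        by_contra hc
        push Not at hc
        have := (lt_hh (k := k) (H := H) (j := j) (i := i') hj).2 hc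
        omega
      have h3 := hT _ hJ
      have h4 : e - (j + k * (i + t)) = 0 := by
        have : k * (i + t) = k * (t + 1) + k * i' := by rw [hi']; ring
        rw [this]; omega
      rw [h4]
      simpa using hz.1
  · have hdisj : Disjoint (Icc (aa lam v k d t j 0 + ((e - k * t - j : ℕ) : ℤ)) (bb lam v k d j h))
        ((Ico (h + 1) q).biUnion (fun i => Icc (aa lam v k d t j i) (bb lam v k d j i))) := by
      rw [disjoint_biUnion_right]
      intro i hi
      rw [mem_Ico] at hi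
      rw [disjoint_left]
      intro z hz1 hz2
      rw [mem_Icc] at hz1 hz2
      obtain ⟨i', hi'⟩ : ∃ i', i = i' + 1 := ⟨i - 1, by omega⟩
      have h1 := gap i' (by omega)
      have h2 := bmono h i' (by omega)
      rw [hi'] at hz2
      omega
    have hpair : ∀ i₁ i₂ : ℕ, h + 1 ≤ i₁ → i₁ < i₂ →
        Disjoint (Icc (aa lam v k d t j i₁) (bb lam v k d j i₁))
          (Icc (aa lam v k d t j i₂) (bb lam v k d j i₂)) := by
      intro i₁ i₂ h1 h2
      rw [disjoint_left]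
      intro z hz1 hz2
      rw [mem_Icc] at hz1 hz2
      obtain ⟨i', hi'⟩ : ∃ i', i₂ = i' + 1 := ⟨i₂ - 1, by omega⟩
      have h3 := gap i' (by omega)
      have h4 := bmono i₁ i' (by omega)
      rw [hi'] at hz2
      omega
    rw [card_union_of_disjoint hdisj, card_biUnion]
    · unfold cntj
      rw [← hh_def, ← hq_def]
      push_cast
      congr 1
      · rw [Int.card_Icc, Int.toNat_of_nonneg (by linarith)]
        ring
      · refine sum_congr rfl fun i hi => ?_
        rw [mem_Ico] at hi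
        rw [Int.card_Icc, Int.toNat_of_nonneg (by have := len i hi.2; linarith)]
    · intro i₁ hi₁ i₂ hi₂ hne
      rw [mem_coe, mem_Ico] at hi₁ hi₂
      rcases lt_or_gt_of_ne hne with hlt | hlt
      · exact hpair i₁ i₂ hi₁.1 hlt
      · exact (hpair i₂ i₁ hi₂.1 hlt).symm

end Pool.Agent.TH633.UM
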